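import Pool.Agent.QSN.StmtsB2

set_option autoImplicit false

namespace Pool.Agent.QSN.H28

open Pool.Agent.QSN

section one

variable {M : ℤ} {t : ℤ → ℝ} {η b : ℝ}

theorem hul_zero (ht : ∀ x x', |x| ≤ M → |x'| ≤ M → |t (x + x') - t x - t x'| ≤ η) (hM : 0 ≤ M) :
    |t 0| ≤ η := by
  have h := ht 0 0 (by simpa using hM) (by simpa using hM)
  have e : t (0 + 0) - t 0 - t 0 = -t 0 := by rw [add_zero]; ring
  rw [e, abs_neg] at h
  exact h

theorem hul_dbl (ht : ∀ x x', |x| ≤ M → |x'| ≤ M → |t (x + x') - t x - t x'| ≤ η)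
    (hη : 0 ≤ η) (u : ℤ) (j : ℕ) (h : 2 ^ j * |u| ≤ M) :
    |t (2 ^ j * u) - 2 ^ j * t u| ≤ (2 ^ j - 1) * η := by
  induction j with
  | zero => simp
  | succ j ih =>
    have h0 : 2 ^ j * |u| ≤ 2 ^ (j + 1) * |u| := by
      have := abs_nonneg u
      have h2 : (0 : ℤ) ≤ 2 ^ j := by positivity
      rw [pow_succ]
      nlinarith [mul_nonneg h2 this]
    have h1 := ih (h0.trans h)
    have h2 : |2 ^ j * u| ≤ M := by
      rw [abs_mul, abs_of_nonneg (by positivity : (0 : ℤ) ≤ 2 ^ j)]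
      exact h0.trans h
    have h3 := ht _ _ h2 h2
    have e : (2 : ℤ) ^ j * u + 2 ^ j * u = 2 ^ (j + 1) * u := by ring
    rw [e] at h3
    have e2 : (2 : ℝ) ^ (j + 1) = 2 * 2 ^ j := by ring
    rw [abs_le] at h1 h3 ⊢
    rw [e2]
    constructor <;> nlinarith [h1.1, h1.2, h3.1, h3.2]

theorem hul_mulN (ht : ∀ x x', |x| ≤ M → |x'| ≤ M → |t (x + x') - t x - t x'| ≤ η)
    (hη : 0 ≤ η) (y : ℤ) (hy : 0 ≤ y) (q : ℕ) (h : (q : ℤ) * y ≤ M) (hyM : y ≤ M) :
    |t ((q : ℤ) * y) - q * t y| ≤ (q + 1) * η := by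
  induction q with
  | zero =>
    have := hul_zero ht (hy.trans hyM)
    simpa using this
  | succ q ih =>
    have hq : (q : ℤ) * y ≤ ((q + 1 : ℕ) : ℤ) * y := by
      push_cast
      nlinarith
    have h1 := ih (hq.trans h)
    have h3 := ht ((q : ℤ) * y) y
      (by rw [abs_of_nonneg (mul_nonneg (by positivity) hy)]; exact hq.trans h)
      (by rw [abs_of_nonneg hy]; exact hyM)
    have e : (q : ℤ) * y + y = ((q + 1 : ℕ) : ℤ) * y := by push_cast; ring
    rw [e] at h3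
    rw [abs_le] at h1 h3 ⊢
    push_cast at h1 h3 ⊢
    constructor <;> nlinarith [h1.1, h1.2, h3.1, h3.2]

theorem hul_neg (ht : ∀ x x', |x| ≤ M → |x'| ≤ M → |t (x + x') - t x - t x'| ≤ η)
    (u : ℤ) (h : |u| ≤ M) : |t (-u) + t u| ≤ 2 * η := by
  have h0 := hul_zero ht ((abs_nonneg u).trans h)
  have h1 := ht u (-u) h (by rwa [abs_neg])
  rw [add_neg_cancel] at h1
  rw [abs_le] at h0 h1 ⊢
  constructor <;> linarith [h0.1, h0.2, h1.1, h1.2]

theorem hul_mulZ (ht : ∀ x x', |x| ≤ M → |x'| ≤ M → |t (x + x') - t x - t x'| ≤ η)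
    (hη : 0 ≤ η) (y : ℤ) (hy : 0 ≤ y) (q : ℤ) (h : |q| * y ≤ M) (hyM : y ≤ M) :
    |t (q * y) - q * t y| ≤ (|(q : ℝ)| + 3) * η := by
  obtain ⟨n, rfl | rfl⟩ := q.eq_nat_or_neg
  · have h' : ((n : ℕ) : ℤ) * y ≤ M := by rwa [Nat.abs_cast] at h
    have h1 := hul_mulN ht hη y hy n h' hyM
    have e : |(((n : ℕ) : ℤ) : ℝ)| = n := by
      rw [Int.cast_natCast, abs_of_nonneg (by positivity)]
    rw [e]
    rw [Int.cast_natCast]
    exact h1.trans (mul_le_mul_of_nonneg_right (by linarith) hη)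
  · have h' : ((n : ℕ) : ℤ) * y ≤ M := by rwa [abs_neg, Nat.abs_cast] at h
    have h1 := hul_mulN ht hη y hy n h' hyM
    have h2 := hul_neg ht ((n : ℤ) * y)
      (by rw [abs_of_nonneg (mul_nonneg (by positivity) hy)]; exact h')
    have e : |((-(n : ℤ) : ℤ) : ℝ)| = n := by
      rw [Int.cast_neg, Int.cast_natCast, abs_neg, abs_of_nonneg (by positivity)]
    rw [e]
    have e1 : -(n : ℤ) * y = -((n : ℤ) * y) := by ring
    rw [e1, Int.cast_neg, Int.cast_natCast]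
    rw [abs_le] at h1 h2 ⊢
    constructor <;> nlinarith [h1.1, h1.2, h2.1, h2.2]

end one

theorem hul_one (K k : ℕ) (t : ℤ → ℝ) (η b : ℝ) (hk : k ≤ K) (hη : 0 ≤ η) (hb : 0 ≤ b)
    (ht : ∀ x x' : ℤ, |x| ≤ 2 ^ K → |x'| ≤ 2 ^ K → |t (x + x') - t x - t x'| ≤ η)
    (hb' : ∀ x : ℤ, |x| ≤ 2 ^ K → |t x| ≤ b) (x : ℤ) (hx : |x| ≤ 2 ^ K) :
    |t x - (x : ℝ) / 2 ^ K * t (2 ^ K)| ≤ 7 * 2 ^ k * η + 2 * (b / 2 ^ k) := by
  obtain ⟨m, rfl⟩ := Nat.exists_eq_add_of_le hk
  set y : ℤ := 2 ^ m with hy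
  have hM : (2 : ℤ) ^ (k + m) = 2 ^ k * y := by rw [hy, pow_add]
  have hypos : 0 < y := by positivity
  have h2k : (1 : ℤ) ≤ 2 ^ k := one_le_pow₀ (by norm_num)
  have hyM : y ≤ 2 ^ (k + m) := by rw [hM]; nlinarith
  set q : ℤ := x.tdiv y with hq
  set r : ℤ := x.tmod y with hr
  have hxq : x = q * y + r := by
    have := Int.mul_tdiv_add_tmod x y
    rw [← hq, ← hr] at this
    linarith
  have hrabs : |r| < y := by
    have h1 := Int.tmod_lt_of_pos x hypos
    have h2 : -y < x.tmod y := by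
      have h3 := Int.tmod_lt_of_pos (-x) hypos
      rw [Int.neg_tmod] at h3
      linarith
    rw [hr, abs_lt]
    exact ⟨h2, h1⟩
  have hqabs : |q| * y ≤ |x| := by
    have h1 : |q * y| ≤ |x| := by
      rw [hq]
      have h4 := Int.mul_tdiv_add_tmod x y
      rcases le_total 0 x with h0 | h0
      · have a1 : 0 ≤ x.tdiv y := Int.tdiv_nonneg h0 hypos.le
        have a2 : 0 ≤ x.tmod y := Int.tmod_nonneg y h0
        rw [abs_of_nonneg (mul_nonneg a1 hypos.le), abs_of_nonneg h0]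
        nlinarith
      · have a1 : 0 ≤ (-x).tdiv y := Int.tdiv_nonneg (by linarith) hypos.le
        have a2 : 0 ≤ (-x).tmod y := Int.tmod_nonneg y (by linarith)
        rw [Int.neg_tdiv] at a1
        rw [Int.neg_tmod] at a2
        rw [abs_of_nonpos (by nlinarith), abs_of_nonpos h0]
        nlinarith
    rwa [abs_mul, abs_of_pos hypos] at h1
  have hqk : |q| ≤ 2 ^ k := by
    have h1 : |q| * y ≤ 2 ^ k * y := by rw [← hM]; exact hqabs.trans hx
    exact le_of_mul_le_mul_right h1 hypos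
  have hqkR : |(q : ℝ)| ≤ 2 ^ k := by exact_mod_cast hqk
  have h2kR : (1 : ℝ) ≤ 2 ^ k := one_le_pow₀ (by norm_num)
  have h2kp : (0 : ℝ) < 2 ^ k := by positivity
  -- the four estimates
  have a1 : |t x - t (q * y) - t r| ≤ η := by
    have := ht (q * y) r (by rw [abs_mul, abs_of_pos hypos]; exact hqabs.trans hx)
      (hrabs.le.trans hyM)
    rwa [← hxq] at this
  have a2 := hul_mulZ ht hη y hypos.le q (hqabs.trans hx) hyM
  have a3 : |t (2 ^ (k + m)) - 2 ^ k * t y| ≤ (2 ^ k - 1) * η := by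
    have := hul_dbl ht hη y k (by rw [abs_of_pos hypos, hM])
    rwa [← hM] at this
  have a4 : |t r| ≤ b / 2 ^ k + η := by
    have hr2 : 2 ^ k * |r| ≤ (2 : ℤ) ^ (k + m) := by
      rw [hM]
      exact mul_le_mul_of_nonneg_left hrabs.le (by positivity)
    have h1 := hul_dbl ht hη r k hr2
    have h2 := hb' (2 ^ k * r) (by
      rw [abs_mul, abs_of_nonneg (by positivity : (0 : ℤ) ≤ 2 ^ k)]; exact hr2)
    have h3 : |2 ^ k * t r| ≤ b + 2 ^ k * η := by
      rw [abs_le] at h1 h2 ⊢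
      constructor <;> nlinarith [h1.1, h1.2, h2.1, h2.2]
    rw [abs_mul, abs_of_pos h2kp] at h3
    rw [div_add' _ _ _ h2kp.ne', le_div_iff₀ h2kp]
    linarith
  have a5 : |t (2 ^ (k + m))| ≤ b := hb' _ (by rw [abs_of_nonneg (by positivity)])
  have a6 : |(q : ℝ) * t y - q / 2 ^ k * t (2 ^ (k + m))| ≤ 2 ^ k * η := by
    have e : (q : ℝ) * t y - q / 2 ^ k * t (2 ^ (k + m)) =
        -(q / 2 ^ k) * (t (2 ^ (k + m)) - 2 ^ k * t y) := by
      field_simp
      ring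
    rw [e, abs_mul, abs_neg, abs_div, abs_of_pos h2kp]
    have h1 : |(q : ℝ)| / 2 ^ k ≤ 1 := by
      rw [div_le_one h2kp]; exact hqkR
    calc |(q : ℝ)| / 2 ^ k * |t (2 ^ (k + m)) - 2 ^ k * t y|
        ≤ 1 * ((2 ^ k - 1) * η) := mul_le_mul h1 a3 (abs_nonneg _) zero_le_one
      _ ≤ 2 ^ k * η := by nlinarith
  have a7 : |((q : ℝ) / 2 ^ k - x / 2 ^ (k + m)) * t (2 ^ (k + m))| ≤ b / 2 ^ k := by
    have hyR : (0 : ℝ) < 2 ^ m := by positivity
    have e : (q : ℝ) / 2 ^ k - x / 2 ^ (k + m) = -(r : ℝ) / 2 ^ (k + m) := by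
      have : (x : ℝ) = q * 2 ^ m + r := by
        have h := congrArg (fun z : ℤ => (z : ℝ)) hxq
        simp only [Int.cast_add, Int.cast_mul, hy, Int.cast_pow, Int.cast_ofNat] at h
        exact h
      rw [this, pow_add]
      field_simp
      ring
    rw [e, abs_mul, abs_div, abs_neg, abs_of_pos (by positivity : (0 : ℝ) < 2 ^ (k + m))]
    have h1 : |(r : ℝ)| ≤ 2 ^ m := by
      have : |r| ≤ 2 ^ m := hrabs.le
      exact_mod_cast this
    have h2 : |(r : ℝ)| / 2 ^ (k + m) ≤ 1 / 2 ^ k := by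
      rw [div_le_div_iff₀ (by positivity) h2kp, pow_add]
      nlinarith
    calc |(r : ℝ)| / 2 ^ (k + m) * |t (2 ^ (k + m))| ≤ 1 / 2 ^ k * b :=
          mul_le_mul h2 a5 (abs_nonneg _) (by positivity)
      _ = b / 2 ^ k := by ring
  have e : t x - (x : ℝ) / 2 ^ (k + m) * t (2 ^ (k + m)) =
      (t x - t (q * y) - t r) + (t (q * y) - q * t y) +
      (q * t y - q / 2 ^ k * t (2 ^ (k + m))) + t r +
      ((q : ℝ) / 2 ^ k - x / 2 ^ (k + m)) * t (2 ^ (k + m)) := by ring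
  rw [e]
  have s1 := abs_add_le ((t x - t (q * y) - t r) + (t (q * y) - q * t y) +
      (q * t y - q / 2 ^ k * t (2 ^ (k + m))) + t r)
      (((q : ℝ) / 2 ^ k - x / 2 ^ (k + m)) * t (2 ^ (k + m)))
  have s2 := abs_add_le ((t x - t (q * y) - t r) + (t (q * y) - q * t y) +
      (q * t y - q / 2 ^ k * t (2 ^ (k + m)))) (t r)
  have s3 := abs_add_le ((t x - t (q * y) - t r) + (t (q * y) - q * t y))
      (q * t y - q / 2 ^ k * t (2 ^ (k + m)))
  have s4 := abs_add_le (t x - t (q * y) - t r) (t (q * y) - q * t y)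
  have s5 : (|(q : ℝ)| + 3) * η ≤ (2 ^ k + 3) * η :=
    mul_le_mul_of_nonneg_right (by linarith) hη
  have s6 : η ≤ 2 ^ k * η := by nlinarith
  nlinarith

theorem hul : HulStmt := by
  intro D K k T η b hk hη hb hT hTb z hz
  have hM : (((2 ^ K : ℕ) : ℕ) : ℤ) = 2 ^ K := by push_cast; rfl
  have hMR : (((2 ^ K : ℕ) : ℕ) : ℝ) = 2 ^ K := by push_cast; rfl
  rw [hM] at hT hTb hz
  -- box
  have hbox : ∀ (i : Fin D) (x : ℤ), |x| ≤ 2 ^ K → ∀ j, |(Pi.single i x : Fin D → ℤ) j| ≤ 2 ^ K := by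
    intro i x hx j
    by_cases hj : j = i
    · subst hj; rw [Pi.single_eq_same]; exact hx
    · rw [Pi.single_eq_of_ne hj, abs_zero]; positivity
  have h1 : ∀ i : Fin D, |T (Pi.single i (z i)) - (z i : ℝ) / 2 ^ K * T (Pi.single i (2 ^ K))| ≤
      7 * 2 ^ k * η + 2 * (b / 2 ^ k) := by
    intro i
    refine hul_one K k (fun x => T (Pi.single i x)) η b hk hη hb ?_ ?_ (z i) (hz i)
    · intro x x' hx hx'
      have := hT _ _ (hbox i x hx) (hbox i x' hx')
      rwa [← Pi.single_add] at this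
    · intro x hx
      exact hTb _ (hbox i x hx)
  have h2 : ∀ s : Finset (Fin D), |T (∑ i ∈ s, Pi.single i (z i)) - ∑ i ∈ s, T (Pi.single i (z i))| ≤
      (s.card + 1) * η := by
    intro s
    induction s using Finset.induction_on with
    | empty =>
      have := hT 0 0 (fun i => by simp) (fun i => by simp)
      have e : T (0 + 0) - T 0 - T 0 = -T 0 := by rw [add_zero]; ring
      rw [e, abs_neg] at this
      simpa using this
    | insert a s ha ih =>
      rw [Finset.sum_insert ha, Finset.sum_insert ha, Finset.card_insert_of_notMem ha]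
      have h3 := hT (Pi.single a (z a)) (∑ i ∈ s, Pi.single i (z i)) (hbox a _ (hz a)) (by
        intro j
        rw [Finset.sum_apply]
        by_cases hj : j ∈ s
        · rw [Finset.sum_eq_single j]
          · rw [Pi.single_eq_same]; exact hz j
          · intro i _ hij
            rw [Pi.single_eq_of_ne (Ne.symm hij)]
          · intro h; exact absurd hj h
        · rw [Finset.sum_eq_zero]
          · rw [abs_zero]; positivity
          · intro i hi
            rw [Pi.single_eq_of_ne]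
            rintro rfl
            exact hj hi)
      push_cast
      rw [abs_le] at h3 ih ⊢
      constructor <;> nlinarith [h3.1, h3.2, ih.1, ih.2]
  have h3 := h2 Finset.univ
  rw [Finset.univ_sum_single, Finset.card_univ, Fintype.card_fin] at h3
  have h4 : |∑ i, T (Pi.single i (z i)) - ∑ i, (z i : ℝ) / 2 ^ K * T (Pi.single i (2 ^ K))| ≤
      D * (7 * 2 ^ k * η + 2 * (b / 2 ^ k)) := by
    rw [← Finset.sum_sub_distrib]
    refine (Finset.abs_sum_le_sum_abs _ _).trans ?_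
    refine (Finset.sum_le_sum fun i _ => h1 i).trans ?_
    rw [Finset.sum_const, Finset.card_univ, Fintype.card_fin, nsmul_eq_mul]
  have e : ∑ i, ((z i : ℝ) / (((2 ^ K : ℕ) : ℕ) : ℝ)) * T (sh (2 ^ K) i) =
      ∑ i, (z i : ℝ) / 2 ^ K * T (Pi.single i (2 ^ K)) := by
    refine Finset.sum_congr rfl fun i _ => ?_
    rw [hMR]
    congr 2
  rw [e]
  have h2k : (1 : ℝ) ≤ 2 ^ k := one_le_pow₀ (by norm_num)
  have hb2 : 0 ≤ b / 2 ^ k := by positivity
  have hD : (0 : ℝ) ≤ D := by positivity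
  have h5 : |T z - ∑ i, (z i : ℝ) / 2 ^ K * T (Pi.single i (2 ^ K))| ≤
      (D + 1) * η + D * (7 * 2 ^ k * η + 2 * (b / 2 ^ k)) := by
    rw [abs_le] at h3 h4 ⊢
    constructor <;> linarith [h3.1, h3.2, h4.1, h4.2]
  refine h5.trans ?_
  have h6 : η ≤ 2 ^ k * η := by nlinarith
  have h7 : (D + 1 : ℝ) * η ≤ (D + 1) * (2 ^ k * η) := mul_le_mul_of_nonneg_left h6 (by linarith)
  have h8 : 0 ≤ 2 ^ k * η := by positivity
  nlinarith [mul_nonneg hD h8, mul_nonneg hD hb2]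

end Pool.Agent.QSN.H28
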